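import Pool.Agent.Helper53.CTG.Goals

/-!
# Bounds along runs (goal DI)
-/

set_option autoImplicit false

namespace Pool.Agent.Helper83.CTG

open Pool.Agent.Helper1.TE (Gad app cif)
open Pool.Agent.Helper53.CTG
open Finset

variable {Z : Type}

/-- Shifts by a list keep the stack. -/
lemma st_shl {g : Gad Z} (hg : OK9 g) (l : List ℕ) (z : Z) : g.st (shl g l z) = g.st z := by
  unfold shl
  induction l generalizing z with
  | nil => rfl
  | cons a l ih => rw [List.foldl_cons, ih, hg.st_sh]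

/-- Shifts by a list keep validity. -/
lemma V_shl {g : Gad Z} (hg : OK9 g) (l : List ℕ) (hl : ∀ a ∈ l, a < g.K) (z : Z) (hz : g.V z) :
    g.V (shl g l z) := by
  unfold shl
  induction l generalizing z with
  | nil => exact hz
  | cons a l ih =>
    rw [List.foldl_cons]
    exact ih (fun b hb => hl b (List.mem_cons_of_mem _ hb)) _
      (hg.sh_V a (hl a List.mem_cons_self) z hz)

/-- The effect of a code. -/
def efT (T : ℕ) : ℤ := if T = 1 then 1 else if T = 2 then -1 else 0

/-- One transformation. -/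
lemma app_step {g : Gad Z} (hg : OK9 g) (tst : ℕ → ℕ) (T v : ℕ) (z z' : Z) (hv : v < g.K)
    (hz : g.V z) (hT : T ≤ 2) (h : app g tst T v z = some z') (d : ℤ) (hd : 0 ≤ d)
    (hd' : 0 ≤ d + efT T) (hs : g.st z < g.G ^ d.toNat) :
    g.V z' ∧ g.st z' < g.G ^ (d + efT T).toNat := by
  unfold app at h
  unfold efT at hd' ⊢
  by_cases h0 : T = 0
  · subst h0
    simp only [if_true] at h
    split_ifs at h with ht
    · simp only [Option.some.injEq] at h
      subst h
      exact ⟨hz, by simpa using hs⟩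
  · rw [if_neg h0] at h
    by_cases h1 : T = 1
    · subst h1
      simp only [if_true, Option.some.injEq] at h
      subst h
      refine ⟨hg.hd_V v hv z hz, ?_⟩
      rw [if_pos rfl]
      have h2 := hg.st_hd v hv z hz
      have h3 : (d + 1).toNat = d.toNat + 1 := by omega
      rw [h3, pow_succ]
      calc g.st (g.hd v z) < g.G * (g.st z + 1) := h2
        _ ≤ g.G * g.G ^ d.toNat := Nat.mul_le_mul_left _ hs
        _ = g.G ^ d.toNat * g.G := mul_comm _ _
    · rw [if_neg h1] at h
      have h2 : T = 2 := by omega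
      subst h2
      rw [if_neg h1, if_pos rfl] at hd' ⊢
      refine ⟨hg.un_V v hv z z' hz h, ?_⟩
      rw [hg.st_un v z z' h]
      have h3 : d.toNat = (d + -1).toNat + 1 := by omega
      rw [h3, pow_succ] at hs
      exact Nat.div_lt_of_lt_mul (by rw [mul_comm]; exact hs)

/-- The invariant. -/
def I (g : Gad Z) (q c : ℕ) (δ : ℕ → ℤ) (s : (ℕ → Z) × ℕ) : Prop :=
  (∀ j, g.V (s.1 j)) ∧ (∀ j ≤ 3 * q + 3, g.st (s.1 j) < g.G ^ (δ j).toNat) ∧
    s.2 < (2 ^ c) ^ ((δ (3 * q + 4)).toNat + 1)

/-- The transformation of a register, after some reads. -/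
lemma I_app {g : Gad Z} (hg : OK9 g) (tst : ℕ → ℕ) (q c : ℕ) (x : De) (δ : ℕ → ℤ)
    (hδ : ∀ j, 0 ≤ δ j) (hδ' : ∀ j, 0 ≤ δ j + eff x j) (C C'' : ℕ → Z) (A v : ℕ) (z : Z)
    (hI : I g q c δ (C, A)) (hC : ∀ j, g.V (C'' j) ∧ g.st (C'' j) = g.st (C j)) (hv : v < g.K)
    (hT : x.T ≤ 2) (hi : x.i ≤ 3 * q + 3) (h : app g tst x.T v (C x.i) = some z) :
    I g q c (fun j => δ j + eff x j) (Function.update C'' x.i z, A) := by
  obtain ⟨h1, h2, h3⟩ := hI
  have he : eff x x.i = efT x.T := by
    unfold eff efT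
    simp
  have hne : ∀ j, j ≠ x.i → eff x j = 0 := by
    intro j hj
    unfold eff
    rw [if_neg hj]
  have key := app_step hg tst x.T v (C x.i) z hv (h1 x.i) hT h (δ x.i) (hδ _)
    (by rw [← he]; exact hδ' _) (h2 _ hi)
  refine ⟨fun j => ?_, fun j hj => ?_, ?_⟩
  · by_cases hji : j = x.i
    · subst hji
      simp only [Function.update_self]
      exact key.1
    · simp only [Function.update_of_ne hji]
      exact (hC j).1
  · by_cases hji : j = x.i
    · subst hji
      simp only [Function.update_self]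
      rw [he]
      exact key.2
    · simp only [Function.update_of_ne hji]
      rw [hne j hji, add_zero, (hC j).2]
      exact h2 j hj
  · change A < (2 ^ c) ^ ((δ (3 * q + 4) + eff x (3 * q + 4)).toNat + 1)
    rw [hne _ (by omega), add_zero]
    exact h3

/-- Reads. -/
lemma upd_ok {g : Gad Z} (hg : OK9 g) (C C'' : ℕ → Z)
    (hC : ∀ j, g.V (C'' j) ∧ g.st (C'' j) = g.st (C j)) (hV : ∀ j, g.V (C j)) (e : ℕ)
    (l : List ℕ) (hl : ∀ a ∈ l, a < g.K) :
    ∀ j, g.V (Function.update C'' e (shl g l (C e)) j) ∧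
      g.st (Function.update C'' e (shl g l (C e)) j) = g.st (C j) := by
  intro j
  by_cases hj : j = e
  · subst hj
    rw [Function.update_self]
    exact ⟨V_shl hg l hl _ (hV j), st_shl hg l _⟩
  · rw [Function.update_of_ne hj]
    exact hC j

/-- The reads of a table step. -/
lemma rd_ok {g : Gad Z} (hg : OK9 g) (m e f G : ℕ) (hG : G < g.K ^ 3) (C : ℕ → Z)
    (hV : ∀ j, g.V (C j)) :
    ∀ j, g.V (rd g m e f G C j) ∧ g.st (rd g m e f G C j) = g.st (C j) := by
  have hK := hg.K_pos
  have hA : gA g.K G < g.K := by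
    unfold gA
    exact Nat.div_lt_of_lt_mul (by rw [← pow_succ]; exact hG)
  have hY : gY g.K G < g.K := Nat.mod_lt _ hK
  have hZ : gZ g.K G < g.K := Nat.mod_lt _ hK
  have hsame : ∀ j, g.V (C j) ∧ g.st (C j) = g.st (C j) := fun j => ⟨hV j, rfl⟩
  have hrep : ∀ n p : ℕ, p < g.K → ∀ b ∈ List.replicate n p, b < g.K := by
    intro n p hp b hb
    rw [List.eq_of_mem_replicate hb]
    exact hp
  have hone : ∀ p, p < g.K → ∀ b ∈ [p], b < g.K := by
    intro p hp b hb
    rw [List.mem_singleton.mp hb]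
    exact hp
  have h1 := upd_ok hg C C hsame hV e [gA g.K G] (hone _ hA)
  unfold rd
  split_ifs with m0 m1
  · exact h1
  · exact upd_ok hg C _ h1 hV f [gY g.K G] (hone _ hY)
  · exact upd_ok hg C _ (upd_ok hg C _ h1 hV f (List.replicate 5 (gY g.K G)) (hrep 5 _ hY)) hV
      (f + 1) (List.replicate 9 (gZ g.K G)) (hrep 9 _ hZ)

/-- One elementary step. -/
lemma exec_step {g : Gad Z} (hg : OK9 g) (tst : ℕ → ℕ) (t : ℕ → ℕ → ℕ → ℕ → ℕ → ℕ) (q c V : ℕ)
    (x : De) (hx : WF q V x) (δ : ℕ → ℤ) (ht : TabOK g t c)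
    (hδ : ∀ j, 0 ≤ δ j) (hδ' : ∀ j, 0 ≤ δ j + eff x j) (G : ℕ) (hG : G < g.K ^ 3)
    (s s' : (ℕ → Z) × ℕ) (hI : I g q c δ s) (h : exec g tst t c x G s = some s') :
    I g q c (fun j => δ j + eff x j) s' := by
  obtain ⟨C, A⟩ := s
  obtain ⟨hr, hc⟩ := ht
  have hc0 : 0 < 2 ^ c := by positivity
  have hsame : ∀ j, g.V (C j) ∧ g.st (C j) = g.st (C j) := fun j => ⟨hI.1 j, rfl⟩
  have hrd := rd_ok hg x.m x.e x.f G hG C hI.1
  unfold exec at h
  by_cases k0 : x.k = 0
  · rw [if_pos k0] at h
    split_ifs at h with hG0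
    rw [Option.map_eq_some_iff] at h
    obtain ⟨z, hz, rfl⟩ := h
    have hi : x.i ≤ 3 * q + 3 := by
      rcases hx.hi with h | h | h
      · omega
      · omega
      · exact h.2
    exact I_app hg tst q c x δ hδ hδ' C C A _ z hI hsame (hr _ _ _ _ _) hx.hT hi hz
  rw [if_neg k0] at h
  by_cases k1 : x.k = 1
  · rw [if_pos k1] at h
    split_ifs at h with hG0
    rw [Option.some.injEq] at h
    subst h
    have hT := hx.h1 k1
    have he : ∀ j, eff x j = 0 := by
      intro j
      unfold eff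
      simp [hT]
    have : (fun j => δ j + eff x j) = δ := by
      funext j
      rw [he, add_zero]
    rw [this]
    exact hI
  rw [if_neg k1] at h
  by_cases k2 : x.k = 2
  · rw [if_pos k2] at h
    split_ifs at h with hG0
    rw [Option.map_eq_some_iff] at h
    obtain ⟨z, hz, rfl⟩ := h
    have hi : x.i ≤ 3 * q + 3 := by
      rcases hx.hi with h | h | h
      · omega
      · omega
      · exact h.2
    exact I_app hg tst q c x δ hδ hδ' C C A _ z hI hsame
      (lt_of_lt_of_le (Nat.mod_lt _ hc0) hc) hx.hT hi hz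
  rw [if_neg k2] at h
  by_cases hn : nrm g.K x.m G
  swap
  · rw [if_neg hn] at h
    exact absurd h (by simp)
  rw [if_pos hn] at h
  by_cases k3 : x.k = 3
  · rw [if_pos k3, Option.map_eq_some_iff] at h
    obtain ⟨z, hz, rfl⟩ := h
    have hi : x.i ≤ 3 * q + 3 := by
      rcases hx.hi with h | h | h
      · omega
      · omega
      · exact h.2
    exact I_app hg tst q c x δ hδ hδ' C _ A _ z hI hrd (hr _ _ _ _ _) hx.hT hi hz
  rw [if_neg k3] at h
  obtain ⟨h1, h2, h3⟩ := hI
  by_cases k4 : x.k = 4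
  · rw [if_pos k4, Option.some.injEq] at h
    subst h
    have hi : x.i = 3 * q + 4 ∧ x.T = 1 := by
      rcases hx.hi with h | h | h
      · exact h.2
      · omega
      · omega
    refine ⟨fun j => (hrd j).1, fun j hj => ?_, ?_⟩
    · have : eff x j = 0 := by
        unfold eff
        rw [if_neg (by omega)]
      simp only [this, add_zero]
      rw [(hrd j).2]
      exact h2 j hj
    · have he : eff x (3 * q + 4) = 1 := by
        unfold eff
        rw [if_pos hi.1.symm, if_pos hi.2]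
      change A * 2 ^ c + t x.m x.v (gA g.K G) (gY g.K G) (gZ g.K G) % 2 ^ c <
        (2 ^ c) ^ ((δ (3 * q + 4) + eff x (3 * q + 4)).toNat + 1)
      have h0 := hδ (3 * q + 4)
      have ht : (δ (3 * q + 4) + eff x (3 * q + 4)).toNat + 1 =
          ((δ (3 * q + 4)).toNat + 1) + 1 := by
        rw [he]
        omega
      have h3' : A + 1 ≤ (2 ^ c) ^ ((δ (3 * q + 4)).toNat + 1) := h3
      rw [ht, pow_succ]
      calc A * 2 ^ c + t x.m x.v (gA g.K G) (gY g.K G) (gZ g.K G) % 2 ^ c
          < A * 2 ^ c + 2 ^ c := Nat.add_lt_add_left (Nat.mod_lt _ hc0) _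
        _ = (A + 1) * 2 ^ c := by ring
        _ ≤ (2 ^ c) ^ ((δ (3 * q + 4)).toNat + 1) * 2 ^ c := Nat.mul_le_mul_right _ h3'
  rw [if_neg k4] at h
  split_ifs at h with hw
  rw [Option.some.injEq] at h
  subst h
  have k5 : x.k = 5 := by
    have := hx.hk
    omega
  have hi : x.i = 3 * q + 4 ∧ x.T = 2 := by
    rcases hx.hi with h | h | h
    · omega
    · exact h.2
    · omega
  refine ⟨fun j => (hrd j).1, fun j hj => ?_, ?_⟩
  · have : eff x j = 0 := by
      unfold eff
      rw [if_neg (by omega)]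
    simp only [this, add_zero]
    rw [(hrd j).2]
    exact h2 j hj
  · have he : eff x (3 * q + 4) = -1 := by
      unfold eff
      rw [if_pos hi.1.symm, if_neg (by omega), if_pos hi.2]
    change A / 2 ^ c < (2 ^ c) ^ ((δ (3 * q + 4) + eff x (3 * q + 4)).toNat + 1)
    have h0 := hδ' (3 * q + 4)
    rw [he] at h0
    have ht : (δ (3 * q + 4)).toNat + 1 =
        ((δ (3 * q + 4) + eff x (3 * q + 4)).toNat + 1) + 1 := by
      rw [he]
      omega
    have h3' : A < (2 ^ c) ^ ((δ (3 * q + 4)).toNat + 1) := h3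
    rw [ht, pow_succ] at h3'
    exact Nat.div_lt_of_lt_mul (by rw [mul_comm]; exact h3')

/-- Goal DI. -/
theorem gDI : GoalDI := by
  intro hDST hEFF hDBD hWFD hDES Z g hg tst t N q c τ A γ C0 C htab hq hqN hγ hC0 hτ hrun
  have hdst := hDST hEFF
  obtain ⟨-, hwf, hroot⟩ := hWFD
  obtain ⟨hop, hdec⟩ := hDES
  have main : ∀ τ : ℕ, τ < 13 ^ Nt N q → ∀ s : (ℕ → Z) × ℕ,
      runs (op g tst t q c (root N q) (Nt N q)) γ τ (C0, 0) = some s →
      I g q c (fun j => dep q (root N q) (Nt N q) τ j) s := by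
    intro τ
    induction τ with
    | zero =>
      intro hτ s hs
      rw [runs_zero, Option.some.injEq] at hs
      subst hs
      refine ⟨fun j => (hC0 j).1, fun j _ => ?_, ?_⟩
      · have h0 := (hdst q (root N q) (Nt N q) 0 j hτ).1
        change g.st (C0 j) < g.G ^ (dep q (root N q) (Nt N q) 0 j).toNat
        rw [h0, (hC0 j).2]
        simp
      · change 0 < (2 ^ c) ^ ((dep q (root N q) (Nt N q) 0 (3 * q + 4)).toNat + 1)
        positivity
    | succ τ ih =>
      intro hτ s hs
      rw [runs_succ_eq_some] at hs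
      obtain ⟨s', hprev, hstep⟩ := hs
      have hτ' : τ < 13 ^ Nt N q := by omega
      have hI := ih hτ' s' hprev
      rw [hop] at hstep
      have hxw : WF q (2 ^ Nt N q * 2) (des q (root N q) (Nt N q) τ) := by
        rw [← hdec q (root N q) (Nt N q) τ hτ']
        exact hwf q 2 (root N q) (Nt N q) τ (Nt N q) hq (hroot N q hq) le_rfl
      have hst : ∀ j, dep q (root N q) (Nt N q) (τ + 1) j =
          dep q (root N q) (Nt N q) τ j + eff (des q (root N q) (Nt N q) τ) j :=
        fun j => (hdst q (root N q) (Nt N q) τ j hτ').2.1 hτ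
      have := exec_step hg tst t q c _ _ hxw (fun j => dep q (root N q) (Nt N q) τ j) htab
        (fun j => (hDBD N q τ j hq hqN hτ').1)
        (fun j => by
          have := (hDBD N q (τ + 1) j hq hqN hτ).1
          rw [hst] at this
          exact this) (γ τ) (hγ τ) s' s hI hstep
      have e : (fun j => dep q (root N q) (Nt N q) (τ + 1) j) = fun j =>
          dep q (root N q) (Nt N q) τ j + eff (des q (root N q) (Nt N q) τ) j := by
        funext j
        exact hst j
      rw [e]
      exact this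
  obtain ⟨h1, h2, h3⟩ := main τ hτ (C, A) hrun
  refine ⟨h1, fun j hj => ?_, ?_⟩
  · refine lt_of_lt_of_le (h2 j hj) ?_
    apply Nat.pow_le_pow_right hg.one_le
    have := (hDBD N q τ j hq hqN hτ).2
    simp only []
    omega
  · have h3' : A < (2 ^ c) ^ ((dep q (root N q) (Nt N q) τ (3 * q + 4)).toNat + 1) := h3
    refine lt_of_lt_of_le h3' ?_
    rw [← pow_mul]
    apply Nat.pow_le_pow_right two_pos
    apply Nat.mul_le_mul_left
    have := (hDBD N q τ (3 * q + 4) hq hqN hτ).2
    omega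

end Pool.Agent.Helper83.CTG
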